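import Mathlib

set_option autoImplicit false

open Set Filter MeasureTheory Topology
open scoped ENNReal NNReal

namespace Pool.Agent.V11210.ARC

/-- The determinant of two vectors of the plane `ℂ`. -/
def cdet (z w : ℂ) : ℝ := z.re * w.im - z.im * w.re

theorem cdet_self (z : ℂ) : cdet z z = 0 := by unfold cdet; ring

theorem cdet_exp (a b : ℂ) : cdet (Complex.exp a) (Complex.exp b) =
    Real.exp a.re * Real.exp b.re * Real.sin (b.im - a.im) := by
  unfold cdet
  rw [Complex.exp_re, Complex.exp_im, Complex.exp_re, Complex.exp_im, Real.sin_sub]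
  ring

theorem exists_lift {l : ℝ} (hl : 0 < l) {g : ℝ → ℂ} (hc : ContinuousOn g (Ioo 0 l))
    (h0 : ∀ s ∈ Ioo 0 l, g s ≠ 0) :
    ∃ L : ℝ → ℂ, ContinuousOn L (Ioo 0 l) ∧ ∀ s ∈ Ioo 0 l, Complex.exp (L s) = g s := by
  have hsc : IsSimplyConnected (Ioo (0:ℝ) l) := by
    have hne : (Ioo (0:ℝ) l).Nonempty := nonempty_Ioo.2 hl
    have := (convex_Ioo (0:ℝ) l).contractibleSpace hne
    show SimplyConnectedSpace (Ioo (0:ℝ) l)
    infer_instance
  obtain ⟨f, hf, hfe⟩ := Complex.exists_continuousOn_eqOn_exp_comp hsc isOpen_Ioo hc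
    (by rintro ⟨s, hs, h⟩; exact h0 s hs h)
  exact ⟨f, hf, fun s hs => hfe hs⟩

/-- Derivative of a continuous logarithm. -/
theorem hasDerivAt_lift {L g : ℝ → ℂ} {s : ℝ} {v : ℂ} (hL : ContinuousAt L s)
    (hexp : ∀ᶠ t in 𝓝 s, Complex.exp (L t) = g t) (hg : HasDerivAt g v s) :
    HasDerivAt L (v / g s) s := by
  have hs : Complex.exp (L s) = g s := hexp.self_of_nhds
  have hg0 : g s ≠ 0 := by rw [← hs]; exact Complex.exp_ne_zero _
  have h1 : HasDerivAt (fun t => g t / g s) (v / g s) s := hg.div_const _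
  have h2 : HasDerivAt (fun t => Complex.log (g t / g s)) ((v / g s) / (g s / g s)) s := by
    refine h1.clog_real ?_
    rw [div_self hg0]
    exact Complex.one_mem_slitPlane
  rw [div_self hg0, div_one] at h2
  have h3 := h2.const_add (L s)
  refine h3.congr_of_eventuallyEq ?_
  have him : ∀ᶠ t in 𝓝 s, |(L t - L s).im| < Real.pi := by
    have hc : ContinuousAt (fun t => |(L t - L s).im|) s :=
      (Complex.continuous_im.continuousAt.comp (hL.sub continuousAt_const)).abs
    have : |(L s - L s).im| < Real.pi := by simp [Real.pi_pos]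
    exact hc.eventually (gt_mem_nhds this) |>.mono fun t ht => ht
  filter_upwards [hexp, him] with t ht1 ht2
  rw [← ht1, ← hs, ← Complex.exp_sub, Complex.log_exp]
  · ring
  · exact (abs_lt.1 ht2).1
  · exact (abs_lt.1 ht2).2.le

/-- `β (1 + cos β) ≤ 2 sin β` on `[0, π]`. -/
theorem beta_ineq {β : ℝ} (h0 : 0 ≤ β) (h1 : β ≤ Real.pi) :
    β * (1 + Real.cos β) ≤ 2 * Real.sin β := by
  have hc : Real.cos β = 2 * Real.cos (β / 2) ^ 2 - 1 := by
    rw [← Real.cos_two_mul]; ring_nf
  have hs : Real.sin β = 2 * Real.sin (β / 2) * Real.cos (β / 2) := by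
    rw [← Real.sin_two_mul]; ring_nf
  have hcos : 0 ≤ Real.cos (β / 2) := Real.cos_nonneg_of_mem_Icc ⟨by linarith [Real.pi_pos], by linarith⟩
  have hkey : β / 2 * Real.cos (β / 2) ≤ Real.sin (β / 2) := by
    rcases eq_or_lt_of_le h1 with h | h
    · rw [h, Real.cos_pi_div_two, Real.sin_pi_div_two]; norm_num
    · have hlt : β / 2 < Real.pi / 2 := by linarith
      have hpos : 0 < Real.cos (β / 2) :=
        Real.cos_pos_of_mem_Ioo ⟨by linarith [Real.pi_pos], hlt⟩
      have := Real.le_tan (by linarith : 0 ≤ β / 2) hlt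
      rw [Real.tan_eq_sin_div_cos, le_div_iff₀ hpos] at this
      exact this
  rw [hc, hs]
  nlinarith [mul_le_mul_of_nonneg_right hkey hcos]

/-- The pointwise inequality. `w = sin β / r` is the angular speed. -/
theorem main_ineq {k β X s r : ℝ} (hβ0 : 0 ≤ β) (hβ1 : β ≤ Real.pi) (hX : X ≤ β) (hs : 0 < s)
    (hr : 0 < r) :
    X * ((1 + Real.cos β) / (s + r)) - Real.sin β / r * (k + Real.log ((s + r) / (2 * s)))
      + (k - 1) * (Real.sin β / r) ≤ 0 := by
  have hsin : 0 ≤ Real.sin β := Real.sin_nonneg_of_nonneg_of_le_pi hβ0 hβ1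
  have hcos : 0 ≤ 1 + Real.cos β := by linarith [Real.neg_one_le_cos β]
  have hsr : 0 < s + r := by linarith
  have hy : 0 < (s + r) / (2 * s) := by positivity
  have hlog := Real.one_sub_inv_le_log_of_pos hy
  have h1 : X * ((1 + Real.cos β) / (s + r)) ≤ 2 * Real.sin β / (s + r) := by
    rw [← mul_div_assoc]
    apply div_le_div_of_nonneg_right _ hsr.le
    calc X * (1 + Real.cos β) ≤ β * (1 + Real.cos β) := mul_le_mul_of_nonneg_right hX hcos
      _ ≤ _ := beta_ineq hβ0 hβ1
  have h2 : 2 * Real.sin β / (s + r) ≤ Real.sin β / r * (1 + Real.log ((s + r) / (2 * s))) := by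
    have h3 : 2 * r / (s + r) ≤ 1 + Real.log ((s + r) / (2 * s)) := by
      have : 1 - ((s + r) / (2 * s))⁻¹ = 2 * r / (s + r) - 1 := by
        field_simp
        ring
      rw [this] at hlog
      linarith
    calc 2 * Real.sin β / (s + r) = Real.sin β / r * (2 * r / (s + r)) := by
          field_simp
      _ ≤ _ := mul_le_mul_of_nonneg_left h3 (by positivity)
  have h3 : Real.sin β / r * (k + Real.log ((s + r) / (2 * s))) =
      Real.sin β / r * (1 + Real.log ((s + r) / (2 * s))) + (k - 1) * (Real.sin β / r) := by ring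
  linarith

end Pool.Agent.V11210.ARC
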