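import Mathlib
import Pool.Agent.V11210.ARC.Lift

set_option autoImplicit false

open Set Filter MeasureTheory Topology
open scoped ENNReal NNReal

namespace Pool.Agent.V11210.ARC

/-- The data: a `1`-Lipschitz unit speed curve `g` on `(0, l)` with continuous logarithm `L` such
that `τ ↦ det (g t, g τ)` is strictly increasing on `[e⁻ᵏ t, t]` for each `t`. -/
structure Data (k l : ℝ) (g L : ℝ → ℂ) : Prop where
  hk : 1 < k
  hl : 0 < l
  lip : ∀ s ∈ Ioo 0 l, ∀ t ∈ Ioo 0 l, s ≤ t → ‖g t - g s‖ ≤ t - s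
  nrm : ∀ s ∈ Ioo 0 l, ‖g s‖ ≤ s
  contL : ContinuousOn L (Ioo 0 l)
  expL : ∀ s ∈ Ioo 0 l, Complex.exp (L s) = g s
  mono : ∀ t ∈ Ioo 0 l, StrictMonoOn (fun τ => cdet (g t) (g τ)) (Icc (Real.exp (-k) * t) t)
  speed : ∀ᵐ s : ℝ, s ∈ Ioo 0 l → ∃ v : ℂ, ‖v‖ = 1 ∧ HasDerivAt g v s

namespace Data

variable {k l : ℝ} {g L : ℝ → ℂ} (D : Data k l g L)
include D

theorem ek_lt : Real.exp (-k) < 1 := by
  rw [Real.exp_lt_one_iff]
  linarith [D.hk]

theorem win_mem {t τ : ℝ} (ht : t ∈ Ioo 0 l) (hτ : τ ∈ Icc (Real.exp (-k) * t) t) : τ ∈ Ioo 0 l :=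
  ⟨lt_of_lt_of_le (mul_pos (Real.exp_pos _) ht.1) hτ.1, lt_of_le_of_lt hτ.2 ht.2⟩

/-- The angle increases by an amount in `(0, π)` over each window. -/
theorem window {t τ : ℝ} (ht : t ∈ Ioo 0 l) (hτ1 : Real.exp (-k) * t ≤ τ) (hτ2 : τ < t) :
    0 < (L t).im - (L τ).im ∧ (L t).im - (L τ).im < Real.pi := by
  have hsin : ∀ x ∈ Ico (Real.exp (-k) * t) t, 0 < Real.sin ((L t).im - (L x).im) := by
    intro x hx
    have hxI : x ∈ Icc (Real.exp (-k) * t) t := ⟨hx.1, hx.2.le⟩
    have htI : t ∈ Icc (Real.exp (-k) * t) t := ⟨hx.1.trans hx.2.le, le_rfl⟩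
    have h1 := D.mono t ht hxI htI hx.2
    simp only [cdet_self] at h1
    rw [← D.expL t ht, ← D.expL x (D.win_mem ht hxI), cdet_exp] at h1
    have h2 : Real.sin ((L x).im - (L t).im) = - Real.sin ((L t).im - (L x).im) := by
      rw [← Real.sin_neg]; ring_nf
    rw [h2] at h1
    by_contra hcon
    push Not at hcon
    have : 0 ≤ Real.exp (L t).re * Real.exp (L x).re * -Real.sin ((L t).im - (L x).im) := by
      have := Real.exp_pos (L t).re
      have := Real.exp_pos (L x).re
      have : 0 ≤ -Real.sin ((L t).im - (L x).im) := by linarith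
      positivity
    linarith
  have hcont : ContinuousOn (fun x => (L t).im - (L x).im) (Icc τ t) := by
    refine continuousOn_const.sub (Complex.continuous_im.comp_continuousOn (D.contL.mono ?_))
    intro x hx
    exact D.win_mem ht ⟨hτ1.trans hx.1, hx.2⟩
  have hns : ∀ c : ℝ, Real.sin c = 0 → ∀ x ∈ Ico τ t, (L t).im - (L x).im ≠ c := by
    intro c hc x hx h
    have := hsin x ⟨hτ1.trans hx.1, hx.2⟩
    rw [h, hc] at this
    exact lt_irrefl _ this
  have hivt := intermediate_value_Icc' hτ2.le hcont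
  have hivt' := intermediate_value_Icc hτ2.le hcont
  simp only [sub_self] at hivt hivt'
  have hτI : τ ∈ Ico τ t := ⟨le_rfl, hτ2⟩
  constructor
  · by_contra hcon
    push Not at hcon
    rcases lt_or_ge ((L t).im - (L τ).im) (-Real.pi) with h | h
    · obtain ⟨x, hx, hxe⟩ := hivt' ⟨h.le, by linarith [Real.pi_pos]⟩
      have hx2 : x ≠ t := by
        rintro rfl
        simp only [sub_self] at hxe
        linarith [Real.pi_pos]
      exact hns (-Real.pi) (by simp) x ⟨hx.1, lt_of_le_of_ne hx.2 hx2⟩ hxe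
    · have h1 := hsin τ ⟨hτ1, hτ2⟩
      have h2 := Real.sin_nonpos_of_nonpos_of_neg_pi_le hcon h
      linarith
  · by_contra hcon
    push Not at hcon
    obtain ⟨x, hx, hxe⟩ := hivt ⟨Real.pi_pos.le, hcon⟩
    have hx2 : x ≠ t := by
      rintro rfl
      simp only [sub_self] at hxe
      linarith [Real.pi_pos]
    exact hns Real.pi (by simp) x ⟨hx.1, lt_of_le_of_ne hx.2 hx2⟩ hxe

/-- Form of `window` with the left endpoint as base point. -/
theorem window' {s t : ℝ} (hs : 0 < s) (ht : t < l) (hst : s < t) (htk : t ≤ Real.exp k * s) :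
    0 < (L t).im - (L s).im ∧ (L t).im - (L s).im < Real.pi := by
  refine D.window ⟨hs.trans hst, ht⟩ ?_ hst
  calc Real.exp (-k) * t ≤ Real.exp (-k) * (Real.exp k * s) :=
        mul_le_mul_of_nonneg_left htk (Real.exp_pos _).le
    _ = s := by rw [← mul_assoc, ← Real.exp_add]; simp

theorem strictMono : StrictMonoOn (fun x => (L x).im) (Ioo 0 l) := by
  -- induction on the number of windows
  have key : ∀ n : ℕ, ∀ s t : ℝ, 0 < s → t < l → s < t → t ≤ Real.exp (k * n) * s →
      (L s).im < (L t).im := by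
    intro n
    induction n with
    | zero =>
      intro s t _ _ h1 h2
      simp at h2
      linarith
    | succ n ih =>
      intro s t hs ht hst hle
      rcases le_or_gt t (Real.exp k * s) with h | h
      · linarith [(D.window' hs ht hst h).1]
      · have hek : 1 < Real.exp k := by
          rw [Real.one_lt_exp_iff]; linarith [D.hk]
        have hs' : s < Real.exp k * s := by nlinarith
        have h1 := (D.window' hs (h.trans ht) hs' le_rfl).1
        have h2 := ih (Real.exp k * s) t (by positivity) ht h (by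
          rw [← mul_assoc, ← Real.exp_add]
          convert hle using 3
          push_cast; ring)
        linarith
  intro s hs t ht hst
  obtain ⟨n, hn⟩ := exists_nat_ge (t / s)
  refine key n s t hs.1 ht.2 hst ?_
  have h1 : t ≤ n * s := by
    rwa [div_le_iff₀ hs.1] at hn
  refine h1.trans (mul_le_mul_of_nonneg_right ?_ hs.1.le)
  have hn0 : (0:ℝ) ≤ n := Nat.cast_nonneg n
  calc (n:ℝ) ≤ k * n := by nlinarith [D.hk]
    _ ≤ k * n + 1 := by linarith
    _ ≤ Real.exp (k * n) := Real.add_one_le_exp _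

theorem contAt {s : ℝ} (hs : s ∈ Ioo 0 l) : ContinuousAt L s :=
  D.contL.continuousAt (Ioo_mem_nhds hs.1 hs.2)

theorem expL_ev {s : ℝ} (hs : s ∈ Ioo 0 l) : ∀ᶠ t in 𝓝 s, Complex.exp (L t) = g t := by
  filter_upwards [Ioo_mem_nhds hs.1 hs.2] with t ht
  exact D.expL t ht

theorem gne {s : ℝ} (hs : s ∈ Ioo 0 l) : g s ≠ 0 := by
  rw [← D.expL s hs]; exact Complex.exp_ne_zero _

theorem norm_g {s : ℝ} (hs : s ∈ Ioo 0 l) : ‖g s‖ = Real.exp (L s).re := by
  rw [← D.expL s hs, Complex.norm_exp]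

/-- If `det (g t, g τ) > det (g t, g s)` for `τ > s` close to `s` then `det (g t, v) ≥ 0`. -/
theorem det_deriv_nonneg {s : ℝ} {v c : ℂ} {b : ℝ} (hb : s < b) (hv : HasDerivAt g v s)
    (h : ∀ τ ∈ Ioo s b, cdet c (g s) < cdet c (g τ)) : 0 ≤ cdet c v := by
  have h1 : HasDerivAt (fun τ => cdet c (g τ)) (cdet c v) s := by
    unfold cdet
    have hre : HasDerivAt (fun τ => (g τ).re) v.re s :=
      (Complex.reCLM.hasFDerivAt.comp_hasDerivAt s hv)
    have him : HasDerivAt (fun τ => (g τ).im) v.im s :=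
      (Complex.imCLM.hasFDerivAt.comp_hasDerivAt s hv)
    exact (him.const_mul _).sub (hre.const_mul _)
  have h2 : HasDerivWithinAt (fun τ => cdet c (g τ)) (cdet c v) (Ioi s) s := h1.hasDerivWithinAt
  rw [hasDerivWithinAt_iff_tendsto_slope' (by simp)] at h2
  refine ge_of_tendsto h2 ?_
  filter_upwards [Ioo_mem_nhdsGT hb] with τ hτ
  rw [slope_def_field]
  have := h τ hτ
  have h3 : 0 < τ - s := by linarith [hτ.1]
  apply div_nonneg _ h3.le
  linarith

/-- The angle inequality. -/
theorem angle {s : ℝ} (hs : 0 < s) (hsk : Real.exp k * s < l) {v : ℂ} (hv1 : ‖v‖ = 1)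
    (hv : HasDerivAt g v s) :
    ∃ β : ℝ, 0 ≤ β ∧ β ≤ Real.pi ∧ (v / g s).re = Real.cos β / ‖g s‖ ∧
      (v / g s).im = Real.sin β / ‖g s‖ ∧
      ∀ t, s ≤ t → t ≤ Real.exp k * s → (L t).im - (L s).im ≤ β := by
  have hek : 1 < Real.exp k := by
    rw [Real.one_lt_exp_iff]; linarith [D.hk]
  have hs' : s < Real.exp k * s := by nlinarith
  have hsI : s ∈ Ioo 0 l := ⟨hs, hs'.trans hsk⟩
  have hg0 := D.gne hsI
  have hv0 : v ≠ 0 := by
    intro h; rw [h] at hv1; simp at hv1
  set z := v / g s with hz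
  have hz0 : z ≠ 0 := div_ne_zero hv0 hg0
  have hnz : ‖z‖ = 1 / ‖g s‖ := by rw [hz, norm_div, hv1]
  have hvz : v = Complex.exp (L s + Complex.log z) := by
    rw [Complex.exp_add, Complex.exp_log hz0, D.expL s hsI, hz]
    field_simp
  -- the determinant inequalities
  have hdet : ∀ t, s ≤ t → t ≤ Real.exp k * s → 0 ≤ cdet (g t) v := by
    intro t h1 h2
    rcases eq_or_lt_of_le h1 with h | h
    · subst h
      refine D.det_deriv_nonneg hs' hv fun τ hτ => ?_
      have hτI : τ ∈ Ioo 0 l := ⟨hs.trans hτ.1, hτ.2.trans hsk⟩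
      have h3 := D.window' hs hτI.2 hτ.1 hτ.2.le
      rw [cdet_self, ← D.expL s hsI, ← D.expL τ hτI, cdet_exp]
      have := Real.sin_pos_of_pos_of_lt_pi h3.1 h3.2
      positivity
    · have htI : t ∈ Ioo 0 l := ⟨hs.trans h, lt_of_le_of_lt h2 hsk⟩
      refine D.det_deriv_nonneg h hv fun τ hτ => ?_
      have hst : Real.exp (-k) * t ≤ s := by
        calc Real.exp (-k) * t ≤ Real.exp (-k) * (Real.exp k * s) :=
              mul_le_mul_of_nonneg_left h2 (Real.exp_pos _).le
          _ = s := by rw [← mul_assoc, ← Real.exp_add]; simp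
      exact D.mono t htI ⟨hst, h.le⟩ ⟨hst.trans hτ.1.le, hτ.2.le⟩ hτ.1
  have hsinv : ∀ t, s ≤ t → t ≤ Real.exp k * s →
      0 ≤ Real.sin (Complex.arg z - ((L t).im - (L s).im)) := by
    intro t h1 h2
    have h3 := hdet t h1 h2
    have htI : t ∈ Ioo 0 l := ⟨lt_of_lt_of_le hs h1, lt_of_le_of_lt h2 hsk⟩
    rw [hvz, ← D.expL t htI, cdet_exp] at h3
    have h4 : (L s + Complex.log z).im - (L t).im = Complex.arg z - ((L t).im - (L s).im) := by
      rw [Complex.add_im, Complex.log_im]; ring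
    rw [h4] at h3
    exact nonneg_of_mul_nonneg_right h3 (by positivity)
  have harg0 : 0 ≤ Complex.arg z := by
    have h1 := hsinv s le_rfl hs'.le
    simp only [sub_self, sub_zero] at h1
    by_contra hcon
    push Not at hcon
    have := Real.sin_neg_of_neg_of_neg_pi_lt hcon (Complex.neg_pi_lt_arg z)
    linarith
  refine ⟨Complex.arg z, harg0, Complex.arg_le_pi z, ?_, ?_, ?_⟩
  · have := Complex.norm_mul_cos_arg z
    rw [← this, hnz]; ring
  · have := Complex.norm_mul_sin_arg z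
    rw [← this, hnz]; ring
  · intro t h1 h2
    rcases eq_or_lt_of_le h1 with h | h
    · subst h; simpa using harg0
    · have h3 := D.window' hs (lt_of_le_of_lt h2 hsk) h h2
      have h4 := hsinv t h1 h2
      by_contra hcon
      push Not at hcon
      have h5 : Complex.arg z - ((L t).im - (L s).im) < 0 := by linarith
      have h6 : -Real.pi < Complex.arg z - ((L t).im - (L s).im) := by linarith
      have := Real.sin_neg_of_neg_of_neg_pi_lt h5 h6
      linarith

end Data

end Pool.Agent.V11210.ARC
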