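import Mathlib
import Pool.Agent.V11210.ARC.Window

set_option autoImplicit false

open Set Filter MeasureTheory Topology
open scoped ENNReal NNReal

namespace Pool.Agent.V11210.ARC

namespace Data

variable {k l : ℝ} {g L : ℝ → ℂ}

/-- The primitive of `φ(t)/t`. -/
noncomputable def F (l : ℝ) (L : ℝ → ℂ) (x : ℝ) : ℝ := ∫ t in (l / 2)..x, (L t).im / t

/-- The upper limit `T(s) = eᵏ (s + r(s)) / 2`. -/
noncomputable def T (k : ℝ) (L : ℝ → ℂ) (s : ℝ) : ℝ := Real.exp k * (s + Real.exp (L s).re) / 2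

/-- `V(s) = ∫_s^{T(s)} (φ(t) - φ(s)) dt / t`. -/
noncomputable def V (k l : ℝ) (L : ℝ → ℂ) (s : ℝ) : ℝ :=
  F l L (T k L s) - F l L s - (L s).im * (Real.log (T k L s) - Real.log s)

variable (D : Data k l g L)
include D

theorem contφ : ContinuousOn (fun t => (L t).im / t) (Ioo 0 l) :=
  (Complex.continuous_im.comp_continuousOn D.contL).div continuousOn_id fun x hx => hx.1.ne'

theorem intφ {p q : ℝ} (hp : p ∈ Ioo 0 l) (hq : q ∈ Ioo 0 l) :
    IntervalIntegrable (fun t => (L t).im / t) volume p q := by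
  refine (D.contφ.mono ?_).intervalIntegrable
  exact (ordConnected_Ioo.uIcc_subset hp hq)

theorem half_mem : l / 2 ∈ Ioo 0 l := ⟨by linarith [D.hl], by linarith [D.hl]⟩

theorem F_deriv {x : ℝ} (hx : x ∈ Ioo 0 l) : HasDerivAt (F l L) ((L x).im / x) x := by
  have h1 := D.intφ D.half_mem hx
  have h2 : ContinuousAt (fun t => (L t).im / t) x :=
    D.contφ.continuousAt (Ioo_mem_nhds hx.1 hx.2)
  have h3 : StronglyMeasurableAtFilter (fun t => (L t).im / t) (𝓝 x) volume :=
    ContinuousOn.stronglyMeasurableAtFilter isOpen_Ioo D.contφ x hx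
  exact intervalIntegral.integral_hasDerivAt_right h1 h3 h2

theorem F_sub {p q : ℝ} (hp : p ∈ Ioo 0 l) (hq : q ∈ Ioo 0 l) :
    F l L q - F l L p = ∫ t in p..q, (L t).im / t :=
  intervalIntegral.integral_interval_sub_left (D.intφ D.half_mem hq) (D.intφ D.half_mem hp)

theorem F_lower {p q : ℝ} (hp : p ∈ Ioo 0 l) (hq : q ∈ Ioo 0 l) (hpq : p ≤ q) :
    (L p).im * (Real.log q - Real.log p) ≤ F l L q - F l L p := by
  rw [D.F_sub hp hq]
  have h1 : (L p).im * (Real.log q - Real.log p) = ∫ t in p..q, (L p).im * t⁻¹ := by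
    rw [intervalIntegral.integral_const_mul, integral_inv_of_pos hp.1 hq.1,
      Real.log_div hq.1.ne' hp.1.ne']
  rw [h1]
  refine intervalIntegral.integral_mono_on hpq ?_ (D.intφ hp hq) ?_
  · refine (intervalIntegral.intervalIntegrable_inv ?_ continuousOn_id).const_mul _
    intro x hx
    exact ((ordConnected_Ioo.uIcc_subset hp hq) hx).1.ne'
  · intro x hx
    have hx0 : 0 < x := lt_of_lt_of_le hp.1 hx.1
    rw [div_eq_mul_inv]
    apply mul_le_mul_of_nonneg_right _ (inv_pos.2 hx0).le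
    exact D.strictMono.monotoneOn hp ⟨hx0, lt_of_le_of_lt hx.2 hq.2⟩ hx.1

theorem F_upper {p q : ℝ} (hp : p ∈ Ioo 0 l) (hq : q ∈ Ioo 0 l) (hpq : p ≤ q) :
    F l L q - F l L p ≤ (L q).im * (Real.log q - Real.log p) := by
  rw [D.F_sub hp hq]
  have h1 : (L q).im * (Real.log q - Real.log p) = ∫ t in p..q, (L q).im * t⁻¹ := by
    rw [intervalIntegral.integral_const_mul, integral_inv_of_pos hp.1 hq.1,
      Real.log_div hq.1.ne' hp.1.ne']
  rw [h1]
  refine intervalIntegral.integral_mono_on hpq (D.intφ hp hq) ?_ ?_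
  · refine (intervalIntegral.intervalIntegrable_inv ?_ continuousOn_id).const_mul _
    intro x hx
    exact ((ordConnected_Ioo.uIcc_subset hp hq) hx).1.ne'
  · intro x hx
    have hx0 : 0 < x := lt_of_lt_of_le hp.1 hx.1
    rw [div_eq_mul_inv]
    apply mul_le_mul_of_nonneg_right _ (inv_pos.2 hx0).le
    exact D.strictMono.monotoneOn ⟨hx0, lt_of_le_of_lt hx.2 hq.2⟩ hq hx.2

theorem two_lt : 2 < Real.exp k := by
  have h1 : Real.exp 1 < Real.exp k := Real.exp_lt_exp.2 D.hk
  linarith [Real.exp_one_gt_d9]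

theorem T_gt {s : ℝ} (hs : 0 < s) : s < T k L s := by
  have h1 := Real.exp_pos (L s).re
  have h2 := D.two_lt
  unfold T
  nlinarith

theorem T_le {s : ℝ} (hs : s ∈ Ioo 0 l) : T k L s ≤ Real.exp k * s := by
  have h1 := D.nrm s hs
  rw [D.norm_g hs] at h1
  have h2 := Real.exp_pos k
  unfold T
  nlinarith

theorem T_mem {s : ℝ} (hs : 0 < s) (hsk : Real.exp k * s < l) : T k L s ∈ Ioo 0 l := by
  have h2 := D.two_lt
  have hsI : s ∈ Ioo 0 l := ⟨hs, by nlinarith⟩
  exact ⟨hs.trans (D.T_gt hs), lt_of_le_of_lt (D.T_le hsI) hsk⟩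

theorem mem_of {s : ℝ} (hs : 0 < s) (hsk : Real.exp k * s < l) : s ∈ Ioo 0 l := by
  have h2 := D.two_lt
  exact ⟨hs, by nlinarith⟩

theorem log_T {s : ℝ} (hs : 0 < s) : Real.log (T k L s) - Real.log s =
    k + Real.log ((s + Real.exp (L s).re) / (2 * s)) := by
  have h1 := Real.exp_pos (L s).re
  have h3 : 0 < s + Real.exp (L s).re := by linarith
  have h4 : T k L s = Real.exp k * (((s + Real.exp (L s).re) / (2 * s)) * s) := by
    unfold T; field_simp
  rw [h4, Real.log_mul (Real.exp_pos k).ne' (by positivity), Real.log_exp,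
    Real.log_mul (by positivity) hs.ne']
  ring

theorem V_nonneg {s : ℝ} (hs : 0 < s) (hsk : Real.exp k * s < l) : 0 ≤ V k l L s := by
  have h1 := D.F_lower (D.mem_of hs hsk) (D.T_mem hs hsk) (D.T_gt hs).le
  unfold V
  linarith

theorem V_le {s : ℝ} (hs : 0 < s) (hsk : Real.exp k * s < l) :
    V k l L s ≤ k * ((L (Real.exp k * s)).im - (L s).im) := by
  have hsI := D.mem_of hs hsk
  have h1 := D.F_upper hsI (D.T_mem hs hsk) (D.T_gt hs).le
  have h2 : Real.log (T k L s) - Real.log s ≤ k := by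
    have : Real.log (T k L s) ≤ Real.log (Real.exp k * s) :=
      Real.log_le_log (D.T_mem hs hsk).1 (D.T_le hsI)
    rw [Real.log_mul (Real.exp_pos k).ne' hs.ne', Real.log_exp] at this
    linarith
  have h3 : 0 ≤ Real.log (T k L s) - Real.log s := by
    have := Real.log_le_log hs (D.T_gt (L := L) hs).le
    linarith
  have h4 : (L (T k L s)).im ≤ (L (Real.exp k * s)).im :=
    D.strictMono.monotoneOn (D.T_mem hs hsk) ⟨mul_pos (Real.exp_pos k) hs, hsk⟩ (D.T_le hsI)
  have h5 : (L s).im ≤ (L (T k L s)).im :=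
    D.strictMono.monotoneOn hsI (D.T_mem hs hsk) (D.T_gt hs).le
  have h6 : V k l L s ≤ ((L (T k L s)).im - (L s).im) * (Real.log (T k L s) - Real.log s) := by
    unfold V
    nlinarith
  have h7 : ((L (T k L s)).im - (L s).im) * (Real.log (T k L s) - Real.log s) ≤
      ((L (Real.exp k * s)).im - (L s).im) * k :=
    mul_le_mul (by linarith) h2 h3 (by linarith)
  linarith

/-- The derivative of `V + (k-1) φ` is nonpositive at good points. -/
theorem W_deriv {s : ℝ} (hs : 0 < s) (hsk : Real.exp k * s < l) {v : ℂ} (hv1 : ‖v‖ = 1)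
    (hv : HasDerivAt g v s) :
    ∃ w ≤ 0, HasDerivAt (fun s => V k l L s + (k - 1) * (L s).im) w s := by
  have hsI := D.mem_of hs hsk
  have hTI := D.T_mem hs hsk
  obtain ⟨β, hβ0, hβ1, hre, him, hX⟩ := D.angle hs hsk hv1 hv
  have hL := hasDerivAt_lift (D.contAt hsI) (D.expL_ev hsI) hv
  have hr : 0 < ‖g s‖ := norm_pos_iff.2 (D.gne hsI)
  set r := ‖g s‖ with hrdef
  have hexp : Real.exp (L s).re = r := (D.norm_g hsI).symm
  have hρ : HasDerivAt (fun t => (L t).re) (Real.cos β / r) s := by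
    rw [← hre]
    exact (Complex.reCLM.hasFDerivAt.comp_hasDerivAt s hL)
  have hφ : HasDerivAt (fun t => (L t).im) (Real.sin β / r) s := by
    rw [← him]
    exact (Complex.imCLM.hasFDerivAt.comp_hasDerivAt s hL)
  have hT : HasDerivAt (T k L) (Real.exp k * (1 + Real.cos β) / 2) s := by
    have h1 := (((hasDerivAt_id s).add hρ.exp).const_mul (Real.exp k)).div_const 2
    have h2 : Real.exp (L s).re * (Real.cos β / r) = Real.cos β := by
      rw [hexp]; field_simp
    rw [h2] at h1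
    exact h1
  have hFT : HasDerivAt (fun t => F l L (T k L t))
      ((L (T k L s)).im / (T k L s) * (Real.exp k * (1 + Real.cos β) / 2)) s :=
    (D.F_deriv hTI).comp s hT
  have hF := D.F_deriv hsI
  have hlog : HasDerivAt (fun t => Real.log (T k L t) - Real.log t)
      ((Real.exp k * (1 + Real.cos β) / 2) / (T k L s) - s⁻¹) s :=
    (hT.log hTI.1.ne').sub (Real.hasDerivAt_log hs.ne')
  have hW := ((hFT.sub hF).sub (hφ.mul hlog)).add (hφ.const_mul (k - 1))
  refine ⟨_, ?_, hW⟩
  have hTs : T k L s = Real.exp k * (s + r) / 2 := by unfold T; rw [hexp]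
  have hlt := D.log_T (L := L) (s := s) hs
  rw [hexp] at hlt
  have hTT : (Real.exp k * (1 + Real.cos β) / 2) / (T k L s) = (1 + Real.cos β) / (s + r) := by
    rw [hTs]
    have : 0 < s + r := by linarith
    have := Real.exp_pos k
    field_simp
  have hmain := main_ineq (k := k) hβ0 hβ1 (hX (T k L s) (D.T_gt hs).le (D.T_le hsI)) hs hr
  rw [← hlt, ← hTT] at hmain
  refine le_trans (le_of_eq ?_) hmain
  rw [div_eq_mul_inv (L s).im s]
  ring

end Data

end Pool.Agent.V11210.ARC
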