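import Mathlib
import Pool.Agent.V11210.ARC.Potential

set_option autoImplicit false

open Set Filter MeasureTheory Topology
open scoped ENNReal NNReal

namespace Pool.Agent.V11210.ARC

theorem lip_of_deriv {G G' : ℝ → ℝ} {p Q : ℝ} (h : ∀ x ∈ Icc p Q, HasDerivAt G (G' x) x)
    (hc : ContinuousOn G' (Icc p Q)) : ∃ C : ℝ≥0, LipschitzOnWith C G (Icc p Q) := by
  obtain ⟨C, hC⟩ := isCompact_Icc.exists_bound_of_continuousOn hc
  refine ⟨C.toNNReal, ?_⟩
  refine (convex_Icc p Q).lipschitzOnWith_of_nnnorm_hasDerivWithin_le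
    (fun x hx => (h x hx).hasDerivWithinAt) fun x hx => ?_
  rw [← NNReal.coe_le_coe, coe_nnnorm]
  exact (hC x hx).trans (Real.le_coe_toNNReal C)

namespace Data

variable {k l : ℝ} {g L : ℝ → ℂ} (D : Data k l g L)
include D

theorem φ_lip {p q : ℝ} (hp : 0 < p) (hq : q < l) (hqk : q ≤ Real.exp k * p) :
    ∃ C : ℝ≥0, LipschitzOnWith C (fun s => (L s).im) (Icc p q) := by
  rcases lt_or_ge q p with h | hpq
  · refine ⟨0, ?_⟩
    rw [Icc_eq_empty (not_le.2 h)]
    exact LipschitzOnWith.of_dist_le_mul (by simp)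
  have hsub : Icc p q ⊆ Ioo 0 l := fun x hx => ⟨hp.trans_le hx.1, hx.2.trans_lt hq⟩
  obtain ⟨x₀, hx₀, hmin⟩ := isCompact_Icc.exists_isMinOn (nonempty_Icc.2 hpq)
    (Complex.continuous_re.comp_continuousOn (D.contL.mono hsub))
  set m := Real.exp (L x₀).re with hm
  have hm0 : 0 < m := Real.exp_pos _
  have hmle : ∀ x ∈ Icc p q, m ≤ ‖g x‖ := by
    intro x hx
    rw [D.norm_g (hsub hx)]
    exact Real.exp_le_exp.2 (hmin hx)
  have key : ∀ s ∈ Icc p q, ∀ t ∈ Icc p q, s ≤ t →
      0 ≤ (L t).im - (L s).im ∧ (L t).im - (L s).im ≤ Real.pi / m * (t - s) := by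
    intro s hs t ht hst
    rcases eq_or_lt_of_le hst with h | h
    · subst h; simp
    have htk : t ≤ Real.exp k * s :=
      ht.2.trans (hqk.trans (mul_le_mul_of_nonneg_left hs.1 (Real.exp_pos k).le))
    have hw := D.window' (hsub hs).1 (hsub ht).2 h htk
    refine ⟨hw.1.le, ?_⟩
    set θ := (L t).im - (L s).im with hθ
    have h1 : 2 / Real.pi * (θ / 2) ≤ Real.sin (θ / 2) :=
      Real.mul_le_sin (by linarith) (by linarith)
    have h2 : ‖Complex.exp (Complex.I * θ) - 1‖ = 2 * Real.sin (θ / 2) := by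
      rw [Complex.norm_exp_I_mul_ofReal_sub_one, Real.norm_of_nonneg]
      have : 0 ≤ Real.sin (θ / 2) :=
        Real.sin_nonneg_of_nonneg_of_le_pi (by linarith) (by linarith [Real.pi_pos])
      positivity
    have hgs := D.gne (hsub hs)
    have hgt := D.gne (hsub ht)
    have h3 : Complex.exp (Complex.I * θ) - 1 =
        ((g t - g s) * (‖g s‖ : ℂ) + g s * ((‖g s‖ : ℂ) - (‖g t‖ : ℂ))) / (g s * (‖g t‖ : ℂ)) := by
      have e1 : Complex.exp (Complex.I * θ) = g t / g s * ((‖g s‖ : ℂ) / (‖g t‖ : ℂ)) := by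
        rw [D.norm_g (hsub hs), D.norm_g (hsub ht), ← D.expL s (hsub hs), ← D.expL t (hsub ht)]
        rw [Complex.ofReal_exp, Complex.ofReal_exp, ← Complex.exp_sub, ← Complex.exp_sub,
          ← Complex.exp_add]
        congr 1
        apply Complex.ext
        · simp
        · simp [hθ]
      have hnt : (‖g t‖ : ℂ) ≠ 0 := by
        exact_mod_cast norm_ne_zero_iff.2 hgt
      rw [e1]
      field_simp
      ring
    have hns : 0 < ‖g s‖ := norm_pos_iff.2 hgs
    have hnt : 0 < ‖g t‖ := norm_pos_iff.2 hgt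
    have hlip := D.lip s (hsub hs) t (hsub ht) hst
    have h4 : ‖Complex.exp (Complex.I * θ) - 1‖ ≤ 2 * (t - s) / ‖g t‖ := by
      rw [h3, norm_div, norm_mul (g s), Complex.norm_real, Real.norm_of_nonneg hnt.le,
        div_le_div_iff₀ (by positivity) hnt]
      have h5 : ‖(g t - g s) * (‖g s‖ : ℂ) + g s * ((‖g s‖ : ℂ) - (‖g t‖ : ℂ))‖ ≤
          2 * (t - s) * ‖g s‖ := by
        refine (norm_add_le _ _).trans ?_
        rw [norm_mul, norm_mul, Complex.norm_real, Real.norm_of_nonneg hns.le,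
          ← Complex.ofReal_sub, Complex.norm_real, Real.norm_eq_abs]
        have h6 : |‖g s‖ - ‖g t‖| ≤ ‖g t - g s‖ := by
          rw [abs_sub_comm]; exact abs_norm_sub_norm_le _ _
        nlinarith
      calc ‖(g t - g s) * (‖g s‖ : ℂ) + g s * ((‖g s‖ : ℂ) - (‖g t‖ : ℂ))‖ * ‖g t‖
          ≤ 2 * (t - s) * ‖g s‖ * ‖g t‖ := mul_le_mul_of_nonneg_right h5 hnt.le
        _ = 2 * (t - s) * (‖g s‖ * ‖g t‖) := by ring
    have h5 : 2 * (t - s) / ‖g t‖ ≤ 2 * (t - s) / m :=
      div_le_div_of_nonneg_left (by linarith) hm0 (hmle t ht)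
    have h6 : 2 / Real.pi * (θ / 2) ≤ (t - s) / m := by
      have : 2 * Real.sin (θ / 2) ≤ 2 * ((t - s) / m) := by
        rw [← h2]
        refine (h4.trans h5).trans (le_of_eq (by ring))
      linarith
    have hpi := Real.pi_pos
    calc θ = Real.pi * (2 / Real.pi * (θ / 2)) := by field_simp
      _ ≤ Real.pi * ((t - s) / m) := mul_le_mul_of_nonneg_left h6 hpi.le
      _ = Real.pi / m * (t - s) := by ring
  refine ⟨(Real.pi / m).toNNReal, LipschitzOnWith.of_dist_le_mul fun s hs t ht => ?_⟩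
  have hcoe : ((Real.pi / m).toNNReal : ℝ) = Real.pi / m :=
    Real.coe_toNNReal _ (by have := Real.pi_pos; positivity)
  rw [hcoe, Real.dist_eq, Real.dist_eq]
  rcases le_total s t with h | h
  · have := key s hs t ht h
    rw [abs_sub_comm, abs_of_nonneg this.1, abs_sub_comm, abs_of_nonneg (by linarith)]
    exact this.2
  · have := key t ht s hs h
    rw [abs_of_nonneg this.1, abs_of_nonneg (by linarith)]
    exact this.2

theorem W_ac {p q : ℝ} (hp : 0 < p) (hpq : p ≤ q) (hq : Real.exp k * q < l)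
    (hqk : q ≤ Real.exp k * p) :
    AbsolutelyContinuousOnInterval (fun s => V k l L s + (k - 1) * (L s).im) p q := by
  have hqI := D.mem_of (hp.trans_le hpq) hq
  have hsub : Icc p q ⊆ Ioo 0 l := fun x hx => ⟨hp.trans_le hx.1, hx.2.trans_lt hqI.2⟩
  have huI : uIcc p q = Icc p q := uIcc_of_le hpq
  set Q := Real.exp k * q with hQ
  have hsubQ : Icc p Q ⊆ Ioo 0 l := fun x hx => ⟨hp.trans_le hx.1, hx.2.trans_lt hq⟩
  have hsubq : Icc p q ⊆ Icc p Q := by
    apply Icc_subset_Icc_right
    have := D.two_lt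
    have : 0 < q := hqI.1
    nlinarith
  have hmaps : MapsTo (T k L) (Icc p q) (Icc p Q) := by
    intro x hx
    refine ⟨hx.1.trans (D.T_gt (hsub hx).1).le, (D.T_le (hsub hx)).trans ?_⟩
    exact mul_le_mul_of_nonneg_left hx.2 (Real.exp_pos k).le
  obtain ⟨C1, hC1⟩ := D.φ_lip hp hqI.2 hqk
  obtain ⟨C2, hC2⟩ := lip_of_deriv (G := F l L) (G' := fun x => (L x).im / x) (p := p) (Q := Q)
    (fun x hx => D.F_deriv (hsubQ hx)) (D.contφ.mono hsubQ)
  obtain ⟨C3, hC3⟩ := lip_of_deriv (G := Real.log) (G' := fun x => x⁻¹) (p := p) (Q := Q)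
    (fun x hx => Real.hasDerivAt_log (hsubQ hx).1.ne')
    (continuousOn_id.inv₀ fun x hx => (hsubQ hx).1.ne')
  have hT : LipschitzOnWith (Real.exp k).toNNReal (T k L) (Icc p q) := by
    refine LipschitzOnWith.of_dist_le_mul fun s hs t ht => ?_
    rw [Real.coe_toNNReal _ (Real.exp_pos k).le, Real.dist_eq, Real.dist_eq]
    have h1 : |‖g s‖ - ‖g t‖| ≤ |s - t| := by
      refine (abs_norm_sub_norm_le _ _).trans ?_
      rcases le_total s t with h | h
      · rw [norm_sub_rev, abs_sub_comm]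
        exact (D.lip s (hsub hs) t (hsub ht) h).trans (le_abs_self _)
      · exact (D.lip t (hsub ht) s (hsub hs) h).trans (le_abs_self _)
    have h2 : T k L s - T k L t = Real.exp k / 2 * ((s - t) + (‖g s‖ - ‖g t‖)) := by
      unfold T
      rw [D.norm_g (hsub hs), D.norm_g (hsub ht)]
      ring
    rw [h2, abs_mul, abs_of_nonneg (by have := Real.exp_pos k; positivity)]
    have h3 : |(s - t) + (‖g s‖ - ‖g t‖)| ≤ 2 * |s - t| :=
      (abs_add_le _ _).trans (by linarith)
    have := Real.exp_pos k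
    calc Real.exp k / 2 * |(s - t) + (‖g s‖ - ‖g t‖)| ≤ Real.exp k / 2 * (2 * |s - t|) :=
          mul_le_mul_of_nonneg_left h3 (by positivity)
      _ = _ := by ring
  have a1 : AbsolutelyContinuousOnInterval (fun s => (L s).im) p q :=
    LipschitzOnWith.absolutelyContinuousOnInterval (by rw [huI]; exact hC1)
  have a2 : AbsolutelyContinuousOnInterval (fun s => F l L (T k L s)) p q :=
    LipschitzOnWith.absolutelyContinuousOnInterval (K := C2 * (Real.exp k).toNNReal)
      (by rw [huI]; exact hC2.comp hT hmaps)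
  have a3 : AbsolutelyContinuousOnInterval (F l L) p q :=
    LipschitzOnWith.absolutelyContinuousOnInterval (by rw [huI]; exact hC2.mono hsubq)
  have a4 : AbsolutelyContinuousOnInterval (fun s => Real.log (T k L s)) p q :=
    LipschitzOnWith.absolutelyContinuousOnInterval (K := C3 * (Real.exp k).toNNReal)
      (by rw [huI]; exact hC3.comp hT hmaps)
  have a5 : AbsolutelyContinuousOnInterval Real.log p q :=
    LipschitzOnWith.absolutelyContinuousOnInterval (by rw [huI]; exact hC3.mono hsubq)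
  exact ((a2.sub a3).sub (a1.mul (a4.sub a5))).add (a1.const_mul (k - 1))

theorem W_anti_local {p q : ℝ} (hp : 0 < p) (hpq : p ≤ q) (hq : Real.exp k * q < l)
    (hqk : q ≤ Real.exp k * p) :
    V k l L q + (k - 1) * (L q).im ≤ V k l L p + (k - 1) * (L p).im := by
  have h1 := (D.W_ac hp hpq hq hqk).integral_deriv_eq_sub
  have h2 : ∫ x in p..q, deriv (fun s => V k l L s + (k - 1) * (L s).im) x ≤ 0 := by
    rw [intervalIntegral.integral_of_le hpq]
    apply integral_nonpos_of_ae
    filter_upwards [ae_restrict_of_ae D.speed, ae_restrict_mem measurableSet_Ioc] with s hs1 hs2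
    have hs0 : 0 < s := hp.trans hs2.1
    have hsk : Real.exp k * s < l :=
      lt_of_le_of_lt (mul_le_mul_of_nonneg_left hs2.2 (Real.exp_pos k).le) hq
    obtain ⟨v, hv1, hv⟩ := hs1 (D.mem_of hs0 hsk)
    obtain ⟨w, hw, hwd⟩ := D.W_deriv hs0 hsk hv1 hv
    rw [hwd.deriv]
    exact hw
  rw [h1] at h2
  linarith

theorem W_anti {p q : ℝ} (hp : 0 < p) (hpq : p ≤ q) (hq : Real.exp k * q < l) :
    V k l L q + (k - 1) * (L q).im ≤ V k l L p + (k - 1) * (L p).im := by
  have key : ∀ n : ℕ, ∀ s : ℝ, 0 < s → s ≤ q → q ≤ Real.exp (k * n) * s →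
      V k l L q + (k - 1) * (L q).im ≤ V k l L s + (k - 1) * (L s).im := by
    intro n
    induction n with
    | zero =>
      intro s _ h1 h2
      simp at h2
      rw [le_antisymm h1 h2]
    | succ n ih =>
      intro s hs hsq hle
      rcases le_or_gt q (Real.exp k * s) with h | h
      · exact D.W_anti_local hs hsq hq h
      · have hs' : s ≤ Real.exp k * s := by nlinarith [D.two_lt]
        have h1 := D.W_anti_local hs hs' (lt_trans (mul_lt_mul_of_pos_left h (Real.exp_pos k)) hq)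
          le_rfl
        have h2 := ih (Real.exp k * s) (by positivity) h.le (by
          rw [← mul_assoc, ← Real.exp_add]
          convert hle using 3
          push_cast; ring)
        linarith
  obtain ⟨n, hn⟩ := exists_nat_ge (q / p)
  refine key n p hp hpq ?_
  have h1 : q ≤ n * p := by
    rwa [div_le_iff₀ hp] at hn
  refine h1.trans (mul_le_mul_of_nonneg_right ?_ hp.le)
  have hn0 : (0:ℝ) ≤ n := Nat.cast_nonneg n
  calc (n:ℝ) ≤ k * n := by nlinarith [D.hk]
    _ ≤ k * n + 1 := by linarith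
    _ ≤ Real.exp (k * n) := Real.add_one_le_exp _

/-- The contradiction. -/
theorem contra : False := by
  have hk := D.hk
  have h2k := D.two_lt
  have hek := Real.exp_pos k
  set s₁ := l / (2 * Real.exp k) with hs₁
  have hs₁0 : 0 < s₁ := by have := D.hl; positivity
  have hs₁k : Real.exp k * s₁ < l := by
    rw [hs₁]
    have := D.hl
    have : Real.exp k * (l / (2 * Real.exp k)) = l / 2 := by field_simp
    rw [this]; linarith
  have hmono := D.strictMono
  -- the basic inequality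
  have hbasic : ∀ s, 0 < s → s ≤ s₁ →
      (k - 1) * ((L s₁).im - (L s).im) ≤ k * ((L (Real.exp k * s)).im - (L s).im) := by
    intro s hs hss
    have hsk : Real.exp k * s < l :=
      lt_of_le_of_lt (mul_le_mul_of_nonneg_left hss hek.le) hs₁k
    have h1 := D.W_anti hs hss hs₁k
    have h2 := D.V_nonneg hs₁0 hs₁k
    have h3 := D.V_le hs hsk
    linarith
  -- bounded below
  have hbdd : BddBelow ((fun s => (L s).im) '' Ioo 0 s₁) := by
    refine ⟨(L s₁).im - k * Real.pi / (k - 1), ?_⟩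
    rintro _ ⟨s, hs, rfl⟩
    have h1 := hbasic s hs.1 hs.2.le
    have hsk : Real.exp k * s < l :=
      lt_trans (mul_lt_mul_of_pos_left hs.2 hek) hs₁k
    have h2 := (D.window' hs.1 hsk (by nlinarith [hs.1]) le_rfl).2
    have h3 : (k - 1) * ((L s₁).im - (L s).im) ≤ k * Real.pi := by
      refine h1.trans (mul_le_mul_of_nonneg_left h2.le (by linarith))
    have h4 : (L s₁).im - (L s).im ≤ k * Real.pi / (k - 1) := by
      rw [le_div_iff₀ (by linarith)]
      linarith
    simp only
    linarith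
  have hne : ((fun s => (L s).im) '' Ioo 0 s₁).Nonempty :=
    (nonempty_Ioo.2 hs₁0).image _
  set m := sInf ((fun s => (L s).im) '' Ioo 0 s₁) with hm
  have hmle : ∀ s ∈ Ioo 0 s₁, m ≤ (L s).im := fun s hs => csInf_le hbdd ⟨s, hs, rfl⟩
  -- `φ s₁ ≤ m + C ε`
  have hfin : (L s₁).im ≤ m := by
    refine le_of_forall_pos_le_add fun ε hε => ?_
    set ε' := ε * (k - 1) / (2 * k) with hε'
    have hk1 : 0 < k - 1 := by linarith
    have hk0 : 0 < k := by linarith
    have hε'0 : 0 < ε' := by positivity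
    obtain ⟨_, ⟨t, ht, rfl⟩, htlt⟩ := exists_lt_of_csInf_lt hne (lt_add_of_pos_right m hε'0)
    simp only at htlt
    set s := Real.exp (-k) * t with hs
    have hs0 : 0 < s := mul_pos (Real.exp_pos _) ht.1
    have hst : Real.exp k * s = t := by
      rw [hs, ← mul_assoc, ← Real.exp_add]; simp
    have hslt : s < t := by
      rw [← hst]; nlinarith
    have h1 := hbasic s hs0 (hslt.trans ht.2).le
    rw [hst] at h1
    have h2 := hmle s ⟨hs0, hslt.trans ht.2⟩
    have hst' : (L s).im < (L t).im :=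
      hmono ⟨hs0, hslt.trans (ht.2.trans (D.mem_of hs₁0 hs₁k).2)⟩
        ⟨ht.1, ht.2.trans (D.mem_of hs₁0 hs₁k).2⟩ hslt
    have h3 : (k - 1) * ((L s₁).im - (L s).im) ≤ k * ε' := by
      refine h1.trans (mul_le_mul_of_nonneg_left (by linarith) hk0.le)
    have h4 : k * ε' = (k - 1) * (ε / 2) := by
      rw [hε']; field_simp
    rw [h4] at h3
    have h5 : (L s₁).im - (L s).im ≤ ε / 2 := le_of_mul_le_mul_left h3 hk1
    have h6 : ε' ≤ ε / 2 := by
      rw [hε', div_le_div_iff₀ (by positivity) (by norm_num)]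
      nlinarith
    linarith
  have hs₁I := D.mem_of hs₁0 hs₁k
  have h1 := hmle (s₁ / 2) ⟨by linarith, by linarith⟩
  have h2 : (L (s₁ / 2)).im < (L s₁).im :=
    hmono ⟨by linarith, by linarith [hs₁I.2]⟩ hs₁I (by linarith)
  linarith

end Data

end Pool.Agent.V11210.ARC
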