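import Mathlib

set_option autoImplicit false

open Set Filter MeasureTheory Topology
open scoped ENNReal NNReal

namespace Pool.Agent.V11210.ARC

theorem ofRealII {f : ℝ → ℝ} {a b : ℝ} (h : IntervalIntegrable f volume a b) :
    IntervalIntegrable (fun s => ((f s : ℝ) : ℂ)) volume a b :=
  ⟨Integrable.ofReal h.1, Integrable.ofReal h.2⟩

/-- A `1`-Lipschitz curve in the plane whose total variation is the length of the interval has unit
speed almost everywhere. -/
theorem ae_unit_speed {l : ℝ} (hl : 0 ≤ l) {g : ℝ → ℂ} (hg : LipschitzOnWith 1 g (Icc 0 l))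
    (hv : ENNReal.ofReal l ≤ eVariationOn g (Icc 0 l)) :
    ∀ᵐ s : ℝ, s ∈ Ioo 0 l → ∃ v : ℂ, ‖v‖ = 1 ∧ HasDerivAt g v s := by
  have hu : uIcc (0:ℝ) l = Icc 0 l := uIcc_of_le hl
  set x : ℝ → ℝ := fun s => (g s).re with hx
  set y : ℝ → ℝ := fun s => (g s).im with hy
  have hxL : LipschitzOnWith 1 x (uIcc 0 l) := by
    rw [hu]
    refine LipschitzOnWith.of_dist_le_mul fun p hp q hq => ?_
    have h1 := hg.dist_le_mul p hp q hq
    refine le_trans ?_ h1
    rw [Real.dist_eq, Complex.dist_eq, ← Complex.sub_re]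
    exact Complex.abs_re_le_norm _
  have hyL : LipschitzOnWith 1 y (uIcc 0 l) := by
    rw [hu]
    refine LipschitzOnWith.of_dist_le_mul fun p hp q hq => ?_
    have h1 := hg.dist_le_mul p hp q hq
    refine le_trans ?_ h1
    rw [Real.dist_eq, Complex.dist_eq, ← Complex.sub_im]
    exact Complex.abs_im_le_norm _
  have hxA := hxL.absolutelyContinuousOnInterval
  have hyA := hyL.absolutelyContinuousOnInterval
  have hxi := hxA.intervalIntegrable_deriv
  have hyi := hyA.intervalIntegrable_deriv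
  set D : ℝ → ℂ := fun s => ((deriv x s : ℝ) : ℂ) + ((deriv y s : ℝ) : ℂ) * Complex.I with hD
  have hDi : IntervalIntegrable D volume 0 l := by
    refine IntervalIntegrable.add ?_ ?_
    · exact ofRealII hxi
    · exact (ofRealII hyi).mul_const _
  -- the fundamental theorem of calculus
  have hftc : ∀ p ∈ Icc (0:ℝ) l, ∀ q ∈ Icc (0:ℝ) l, p ≤ q → ∫ s in p..q, D s = g q - g p := by
    intro p hp q hq hpq
    have hsub : uIcc p q ⊆ uIcc 0 l := by
      rw [hu, uIcc_of_le hpq]
      exact Icc_subset_Icc hp.1 hq.2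
    have h1 := (hxA.mono hsub).integral_deriv_eq_sub
    have h2 := (hyA.mono hsub).integral_deriv_eq_sub
    have i1 : IntervalIntegrable (fun s => ((deriv x s : ℝ) : ℂ)) volume p q := ofRealII (hxi.mono_set hsub)
    have i2 : IntervalIntegrable (fun s => ((deriv y s : ℝ) : ℂ) * Complex.I) volume p q :=
      (ofRealII (hyi.mono_set hsub)).mul_const _
    rw [hD, intervalIntegral.integral_add i1 i2, intervalIntegral.integral_mul_const,
      intervalIntegral.integral_ofReal, intervalIntegral.integral_ofReal, h1, h2]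
    apply Complex.ext <;> simp [hx, hy]
  set f : ℝ → ℝ := fun s => ∫ u in (0:ℝ)..s, ‖D u‖ with hf
  have hNi : IntervalIntegrable (fun s => ‖D s‖) volume 0 l := hDi.norm
  have hff : ∀ p ∈ Icc (0:ℝ) l, ∀ q ∈ Icc (0:ℝ) l, p ≤ q → f q - f p = ∫ u in p..q, ‖D u‖ := by
    intro p hp q hq hpq
    rw [hf]
    refine intervalIntegral.integral_interval_sub_left ?_ ?_
    · exact hNi.mono_set (by rw [hu, uIcc_of_le hq.1]; exact Icc_subset_Icc le_rfl hq.2)
    · exact hNi.mono_set (by rw [hu, uIcc_of_le hp.1]; exact Icc_subset_Icc le_rfl hp.2)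
  have hfm : MonotoneOn f (Icc 0 l) := by
    intro p hp q hq hpq
    have h1 := hff p hp q hq hpq
    have h2 : 0 ≤ ∫ u in p..q, ‖D u‖ :=
      intervalIntegral.integral_nonneg hpq fun u _ => norm_nonneg _
    linarith
  have hle : eVariationOn g (Icc 0 l) ≤ ENNReal.ofReal (f l - f 0) := by
    rw [← hfm.eVariationOn_eq (a := 0) (b := l) (left_mem_Icc.2 hl) (right_mem_Icc.2 hl)]
    simp only [inter_self]
    refine iSup_le fun u => ?_
    refine le_trans (Finset.sum_le_sum fun i _ => ?_) (eVariationOn.sum_le (f := f) (s := Icc 0 l)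
      (n := u.1) u.2.2.1 u.2.2.2)
    have hi := u.2.2.2 i
    have hi' := u.2.2.2 (i + 1)
    have hm : u.2.1 i ≤ u.2.1 (i + 1) := u.2.2.1 (Nat.le_succ i)
    rw [edist_dist, edist_dist]
    apply ENNReal.ofReal_le_ofReal
    rw [Complex.dist_eq, Real.dist_eq, ← hftc _ hi _ hi' hm, hff _ hi _ hi' hm]
    refine le_trans (intervalIntegral.norm_integral_le_integral_norm hm) (le_abs_self _)
  have hlf : l ≤ f l - f 0 := by
    have h1 := hv.trans hle
    have h0 : 0 ≤ f l - f 0 := by
      have := hfm (left_mem_Icc.2 hl) (right_mem_Icc.2 hl) hl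
      linarith
    exact (ENNReal.ofReal_le_ofReal_iff h0).1 h1
  rw [hff 0 (left_mem_Icc.2 hl) l (right_mem_Icc.2 hl) hl] at hlf
  -- derivatives exist a.e.
  have hd : ∀ᵐ s : ℝ, s ∈ Ioo 0 l → HasDerivAt g (D s) s := by
    filter_upwards [hxA.ae_differentiableAt, hyA.ae_differentiableAt] with s h1 h2 hs
    have hs' : s ∈ uIcc 0 l := by rw [hu]; exact Ioo_subset_Icc_self hs
    have h3 := (h1 hs').hasDerivAt.ofReal_comp
    have h4 := ((h2 hs').hasDerivAt.ofReal_comp).mul_const Complex.I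
    have h5 := h3.add h4
    refine h5.congr_of_eventuallyEq ?_
    filter_upwards with t
    apply Complex.ext <;> simp [hx, hy]
  have hD1 : ∀ᵐ s : ℝ, s ∈ Ioo 0 l → ‖D s‖ ≤ 1 := by
    filter_upwards [hd] with s h1 hs
    have h2 := h1 hs
    have h3 : ∃ C, ∀ᶠ z in 𝓝 s, ‖g z - g s‖ ≤ C * ‖z - s‖ := ⟨1, by
      filter_upwards [Ioo_mem_nhds hs.1 hs.2] with z hz
      have := hg.dist_le_mul z (Ioo_subset_Icc_self hz) s (Ioo_subset_Icc_self hs)
      simpa [dist_eq_norm] using this⟩
    have h4 : ∀ᶠ z in 𝓝 s, ‖g z - g s‖ ≤ (1:ℝ) * ‖z - s‖ := by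
      filter_upwards [Ioo_mem_nhds hs.1 hs.2] with z hz
      have := hg.dist_le_mul z (Ioo_subset_Icc_self hz) s (Ioo_subset_Icc_self hs)
      simpa [dist_eq_norm] using this
    exact h2.le_of_lip' zero_le_one h4
  have hint : ∫ s in (0:ℝ)..l, (1 - ‖D s‖) = 0 := by
    have h1 : ∫ s in (0:ℝ)..l, (1 - ‖D s‖) = l - ∫ s in (0:ℝ)..l, ‖D s‖ := by
      rw [intervalIntegral.integral_sub intervalIntegrable_const hNi]
      simp
    have h2 : 0 ≤ ∫ s in (0:ℝ)..l, (1 - ‖D s‖) := by
      rw [intervalIntegral.integral_of_le hl, integral_Ioc_eq_integral_Ioo]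
      apply integral_nonneg_of_ae
      filter_upwards [ae_restrict_of_ae hD1, ae_restrict_mem measurableSet_Ioo] with s h3 h4
      have := h3 h4
      simp only [Pi.zero_apply]
      linarith
    linarith
  have h1 : ∀ᵐ s ∂(volume.restrict (Ioo 0 l)), 1 - ‖D s‖ = 0 := by
    rw [intervalIntegral.integral_of_le hl, integral_Ioc_eq_integral_Ioo] at hint
    have hnn : 0 ≤ᵐ[volume.restrict (Ioo 0 l)] fun s => 1 - ‖D s‖ := by
      filter_upwards [ae_restrict_of_ae hD1, ae_restrict_mem measurableSet_Ioo] with s h3 h4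
      have := h3 h4
      simp only [Pi.zero_apply]
      linarith
    have hi : IntegrableOn (fun s => 1 - ‖D s‖) (Ioo 0 l) volume := by
      have := (intervalIntegrable_const (c := (1:ℝ))).sub hNi
      exact ((intervalIntegrable_iff_integrableOn_Ioc_of_le hl).1 this).mono_set Ioo_subset_Ioc_self
    exact (integral_eq_zero_iff_of_nonneg_ae hnn hi).1 hint
  rw [ae_restrict_iff' measurableSet_Ioo] at h1
  filter_upwards [h1, hd] with s h2 h3 hs
  exact ⟨D s, by linarith [h2 hs], h3 hs⟩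

end Pool.Agent.V11210.ARC
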