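import Mathlib
import Pool.Agent.V11210.ARC.Final
import Pool.Agent.V11210.ARC.Speed

set_option autoImplicit false

open Set Filter MeasureTheory Topology
open scoped ENNReal NNReal

namespace Pool.Agent.V11210.ARC

theorem cdet_conj (z w : ℂ) : cdet (starRingEnd ℂ z) (starRingEnd ℂ w) = - cdet z w := by
  unfold cdet; simp; ring

theorem cdet_cont {g : ℝ → ℂ} {s : Set ℝ} (c : ℂ) (hg : ContinuousOn g s) :
    ContinuousOn (fun x => cdet c (g x)) s := by
  unfold cdet
  exact (continuousOn_const.mul (Complex.continuous_im.comp_continuousOn hg)).sub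
    (continuousOn_const.mul (Complex.continuous_re.comp_continuousOn hg))

theorem no_curve_mono {k l : ℝ} (hk : 1 < k) (hl : 0 < l) {g : ℝ → ℂ}
    (hlip : ∀ s ∈ Icc 0 l, ∀ t ∈ Icc 0 l, s ≤ t → ‖g t - g s‖ ≤ t - s) (hg0 : g 0 = 0)
    (hne : ∀ s ∈ Ioo 0 l, g s ≠ 0)
    (hspeed : ∀ᵐ s : ℝ, s ∈ Ioo 0 l → ∃ v : ℂ, ‖v‖ = 1 ∧ HasDerivAt g v s)
    (hmono : ∀ t ∈ Ioo 0 l, StrictMonoOn (fun τ => cdet (g t) (g τ)) (Icc (Real.exp (-k) * t) t)) :
    False := by
  have hcont : ContinuousOn g (Ioo 0 l) := by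
    have : LipschitzOnWith 1 g (Ioo 0 l) := by
      refine LipschitzOnWith.of_dist_le_mul fun s hs t ht => ?_
      rw [NNReal.coe_one, one_mul, dist_eq_norm, Real.dist_eq]
      have hs' := Ioo_subset_Icc_self hs
      have ht' := Ioo_subset_Icc_self ht
      rcases le_total s t with h | h
      · rw [norm_sub_rev, abs_sub_comm]
        exact (hlip s hs' t ht' h).trans (le_abs_self _)
      · exact (hlip t ht' s hs' h).trans (le_abs_self _)
    exact this.continuousOn
  obtain ⟨L, hL, hLe⟩ := exists_lift hl hcont hne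
  have D : Data k l g L :=
    { hk := hk
      hl := hl
      lip := fun s hs t ht h => hlip s (Ioo_subset_Icc_self hs) t (Ioo_subset_Icc_self ht) h
      nrm := fun s hs => by
        have := hlip 0 (left_mem_Icc.2 hl.le) s (Ioo_subset_Icc_self hs) hs.1.le
        simpa [hg0] using this
      contL := hL
      expL := hLe
      mono := hmono
      speed := hspeed }
  exact D.contra

theorem no_curve {k l : ℝ} (hk : 1 < k) (hl : 0 < l) {g : ℝ → ℂ}
    (hlip : ∀ s ∈ Icc 0 l, ∀ t ∈ Icc 0 l, s ≤ t → ‖g t - g s‖ ≤ t - s) (hg0 : g 0 = 0)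
    (hvar : ENNReal.ofReal l ≤ eVariationOn g (Icc 0 l))
    (hne : ∀ s ∈ Ioo 0 l, g s ≠ 0)
    (hno : ∀ t ∈ Ioo 0 l, ∀ τ ∈ Ioo (Real.exp (-k) * t) t,
      ¬ IsLocalExtr (fun x => cdet (g t) (g x)) τ) : False := by
  have hek : Real.exp (-k) < 1 := by
    rw [Real.exp_lt_one_iff]; linarith
  have hekp := Real.exp_pos (-k)
  have hLip : LipschitzOnWith 1 g (Icc 0 l) := by
    refine LipschitzOnWith.of_dist_le_mul fun s hs t ht => ?_
    rw [NNReal.coe_one, one_mul, dist_eq_norm, Real.dist_eq]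
    rcases le_total s t with h | h
    · rw [norm_sub_rev, abs_sub_comm]
      exact (hlip s hs t ht h).trans (le_abs_self _)
    · exact (hlip t ht s hs h).trans (le_abs_self _)
  have hcont : ContinuousOn g (Icc 0 l) := hLip.continuousOn
  have hspeed := ae_unit_speed hl.le hLip hvar
  -- injectivity on the windows
  have hwin : ∀ t ∈ Ioo 0 l, Icc (Real.exp (-k) * t) t ⊆ Ioo 0 l := by
    intro t ht x hx
    exact ⟨lt_of_lt_of_le (mul_pos hekp ht.1) hx.1, lt_of_le_of_lt hx.2 ht.2⟩
  have hlt : ∀ t ∈ Ioo 0 l, Real.exp (-k) * t < t := by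
    intro t ht
    nlinarith [ht.1]
  have hmono : ∀ t ∈ Ioo 0 l,
      StrictMonoOn (fun τ => cdet (g t) (g τ)) (Icc (Real.exp (-k) * t) t) ∨
      StrictAntiOn (fun τ => cdet (g t) (g τ)) (Icc (Real.exp (-k) * t) t) := by
    intro t ht
    have hc : ContinuousOn (fun τ => cdet (g t) (g τ)) (Icc (Real.exp (-k) * t) t) :=
      cdet_cont _ (hcont.mono ((hwin t ht).trans Ioo_subset_Icc_self))
    have hinj : InjOn (fun τ => cdet (g t) (g τ)) (Icc (Real.exp (-k) * t) t) := by
      have key : ∀ x ∈ Icc (Real.exp (-k) * t) t, ∀ y ∈ Icc (Real.exp (-k) * t) t, x < y →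
          cdet (g t) (g x) ≠ cdet (g t) (g y) := by
        intro x hx y hy hxy heq
        obtain ⟨c, hc1, hc2⟩ := exists_isLocalExtr_Ioo hxy (hc.mono (Icc_subset_Icc hx.1 hy.2)) heq
        exact hno t ht c ⟨lt_of_le_of_lt hx.1 hc1.1, lt_of_lt_of_le hc1.2 hy.2⟩ hc2
      intro x hx y hy heq
      rcases lt_trichotomy x y with h | h | h
      · exact absurd heq (key x hx y hy h)
      · exact h
      · exact absurd heq.symm (key y hy x hx h)
    exact hc.strictMonoOn_of_injOn_Icc' (hlt t ht).le hinj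
  -- the sign function
  have hsign : ContinuousOn (fun t => cdet (g t) (g (Real.exp (-k) * t))) (Ioo 0 l) := by
    have h1 : ContinuousOn g (Ioo 0 l) := hcont.mono Ioo_subset_Icc_self
    have h2 : ContinuousOn (fun t => g (Real.exp (-k) * t)) (Ioo 0 l) := by
      refine h1.comp (by fun_prop) ?_
      intro t ht
      exact hwin t ht ⟨le_rfl, (hlt t ht).le⟩
    unfold cdet
    exact ((Complex.continuous_re.comp_continuousOn h1).mul
      (Complex.continuous_im.comp_continuousOn h2)).sub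
      ((Complex.continuous_im.comp_continuousOn h1).mul
      (Complex.continuous_re.comp_continuousOn h2))
  have hnz : ∀ t ∈ Ioo 0 l, cdet (g t) (g (Real.exp (-k) * t)) ≠ 0 := by
    intro t ht h
    have hL : Real.exp (-k) * t ∈ Icc (Real.exp (-k) * t) t := ⟨le_rfl, (hlt t ht).le⟩
    have hR : t ∈ Icc (Real.exp (-k) * t) t := ⟨(hlt t ht).le, le_rfl⟩
    rcases hmono t ht with hm | hm
    · have := hm hL hR (hlt t ht)
      simp only [cdet_self] at this
      linarith
    · have := hm hL hR (hlt t ht)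
      simp only [cdet_self] at this
      linarith
  have hconst : (∀ t ∈ Ioo 0 l, cdet (g t) (g (Real.exp (-k) * t)) < 0) ∨
      (∀ t ∈ Ioo 0 l, 0 < cdet (g t) (g (Real.exp (-k) * t))) := by
    by_contra hcon
    push Not at hcon
    obtain ⟨⟨x, hx, hx0⟩, y, hy, hy0⟩ := hcon
    have := (isPreconnected_Ioo.image _ hsign).ordConnected.out ⟨y, hy, rfl⟩ ⟨x, hx, rfl⟩
      (show (0:ℝ) ∈ Icc _ _ from ⟨hy0, hx0⟩)
    obtain ⟨z, hz, hz0⟩ := this
    exact hnz z hz hz0
  rcases hconst with hneg | hpos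
  · refine no_curve_mono hk hl hlip hg0 hne hspeed fun t ht => ?_
    rcases hmono t ht with hm | hm
    · exact hm
    · have := hm (a := Real.exp (-k) * t) (b := t) ⟨le_rfl, (hlt t ht).le⟩
        ⟨(hlt t ht).le, le_rfl⟩ (hlt t ht)
      simp only [cdet_self] at this
      linarith [hneg t ht]
  · refine no_curve_mono (g := fun s => starRingEnd ℂ (g s)) hk hl ?_ ?_ ?_ ?_ ?_
    · intro s hs t ht h
      rw [← map_sub, Complex.norm_conj]
      exact hlip s hs t ht h
    · simp [hg0]
    · intro s hs h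
      exact hne s hs (by simpa using h)
    · filter_upwards [hspeed] with s h1 hs
      obtain ⟨v, hv1, hv⟩ := h1 hs
      refine ⟨starRingEnd ℂ v, by rw [Complex.norm_conj, hv1], ?_⟩
      exact (Complex.conjCLE.toContinuousLinearMap.hasFDerivAt.comp_hasDerivAt s hv)
    · intro t ht
      rcases hmono t ht with hm | hm
      · have := hm (a := Real.exp (-k) * t) (b := t) ⟨le_rfl, (hlt t ht).le⟩
          ⟨(hlt t ht).le, le_rfl⟩ (hlt t ht)
        simp only [cdet_self] at this
        linarith [hpos t ht]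
      · intro x hx y hy hxy
        simp only [cdet_conj]
        exact neg_lt_neg (hm hx hy hxy)

end Pool.Agent.V11210.ARC
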