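import Mathlib
import Pool.Agent.V11210.ARC.NoCurve

set_option autoImplicit false

open Set Filter MeasureTheory Topology
open scoped ENNReal NNReal

namespace Pool.Agent.V11210.ARC

/-- Arc length from `a` to `t`. -/
noncomputable def len (γ : ℝ → ℂ) (a t : ℝ) : ℝ := (eVariationOn γ (Icc a t)).toReal

section

variable {a b : ℝ} {γ : ℝ → ℂ}

theorem len_eq {t : ℝ} (hat : a ≤ t) (htb : t ≤ b) :
    len γ a t = variationOnFromTo γ (Icc a b) a t := by
  rw [variationOnFromTo.eq_of_le _ _ hat, len]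
  congr 2
  rw [Icc_inter_Icc, max_self, min_eq_right htb]

theorem len_sub (hr : BoundedVariationOn γ (Icc a b)) {s t : ℝ} (has : a ≤ s) (hst : s ≤ t)
    (htb : t ≤ b) : len γ a t - len γ a s = (eVariationOn γ (Icc s t)).toReal := by
  have hloc := hr.locallyBoundedVariationOn
  have ha : a ∈ Icc a b := ⟨le_rfl, has.trans (hst.trans htb)⟩
  have hs : s ∈ Icc a b := ⟨has, hst.trans htb⟩
  have ht : t ∈ Icc a b := ⟨has.trans hst, htb⟩
  rw [len_eq (has.trans hst) htb, len_eq has (hst.trans htb),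
    variationOnFromTo.sub_right hloc ha ht hs, variationOnFromTo.eq_of_le _ _ hst]
  congr 2
  rw [Icc_inter_Icc, max_eq_right has, min_eq_right htb]

theorem len_mono (hr : BoundedVariationOn γ (Icc a b)) {s t : ℝ} (has : a ≤ s) (hst : s ≤ t)
    (htb : t ≤ b) : len γ a s ≤ len γ a t := by
  have := len_sub hr has hst htb
  have h2 : 0 ≤ (eVariationOn γ (Icc s t)).toReal := ENNReal.toReal_nonneg
  linarith

theorem norm_le_len (hr : BoundedVariationOn γ (Icc a b)) {s t : ℝ} (has : a ≤ s) (hst : s ≤ t)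
    (htb : t ≤ b) : ‖γ t - γ s‖ ≤ len γ a t - len γ a s := by
  rw [len_sub hr has hst htb]
  have hr' : BoundedVariationOn γ (Icc s t) := hr.mono (Icc_subset_Icc has htb)
  have := hr'.dist_le (x := t) (y := s) (right_mem_Icc.2 hst) (left_mem_Icc.2 hst)
  rwa [dist_eq_norm] at this

theorem len_self : len γ a a = 0 := by
  unfold len
  rw [Icc_self, eVariationOn.subsingleton γ subsingleton_singleton]
  simp

theorem len_cont (hc : ContinuousOn γ (Icc a b)) (hr : BoundedVariationOn γ (Icc a b)) :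
    ContinuousOn (len γ a) (Icc a b) := by
  intro x hx
  have h1 := hr.tendsto_eVariationOn_Icc_zero_right x ((hc x hx).mono inter_subset_left)
  have h2 := hr.tendsto_eVariationOn_Icc_zero_left (x := x) ((hc x hx).mono inter_subset_left)
  have h3 := (ENNReal.tendsto_toReal ENNReal.zero_ne_top).comp h1
  have h4 := (ENNReal.tendsto_toReal ENNReal.zero_ne_top).comp h2
  have h5 := h3.add h4
  simp only [ENNReal.toReal_zero, add_zero] at h5
  rw [ContinuousWithinAt, tendsto_iff_dist_tendsto_zero]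
  refine squeeze_zero' (Eventually.of_forall fun _ => dist_nonneg) ?_ h5
  filter_upwards [self_mem_nhdsWithin] with y hy
  rw [Real.dist_eq]
  simp only [Function.comp_apply]
  have e1 : 0 ≤ (eVariationOn γ (Icc a b ∩ Icc x y)).toReal := ENNReal.toReal_nonneg
  have e2 : 0 ≤ (eVariationOn γ (Icc a b ∩ Icc y x)).toReal := ENNReal.toReal_nonneg
  rcases le_total x y with h | h
  · have h6 := len_sub hr hx.1 h hy.2
    have h7 : Icc a b ∩ Icc x y = Icc x y := by
      rw [Icc_inter_Icc, max_eq_right hx.1, min_eq_right hy.2]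
    rw [h6, abs_of_nonneg ENNReal.toReal_nonneg, h7]
    rw [h7] at e1
    linarith
  · have h6 := len_sub hr hy.1 h hx.2
    have h7 : Icc a b ∩ Icc y x = Icc y x := by
      rw [Icc_inter_Icc, max_eq_right hy.1, min_eq_right hx.2]
    rw [abs_sub_comm, h6, abs_of_nonneg ENNReal.toReal_nonneg, h7]
    rw [h7] at e2
    linarith

/-- The reduction to the arc length parameter. -/
theorem reduce (hc : ContinuousOn γ (Icc a b)) (hr : BoundedVariationOn γ (Icc a b))
    (h0 : γ a = 0) {k t₀ : ℝ} (hk : 1 < k) (ht₀ : t₀ ∈ Ioo a b)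
    (H : ∀ t ∈ Ioc a t₀, ∀ τ ∈ Ioc a t,
      (γ t = 0 ∨ IsLocalExtr (fun x => cdet (γ t) (γ x)) τ) →
        len γ a τ < Real.exp (-k) * len γ a t) : False := by
  have hek : Real.exp (-k) < 1 := by
    rw [Real.exp_lt_one_iff]; linarith
  have hekp := Real.exp_pos (-k)
  have hsub : Icc a t₀ ⊆ Icc a b := Icc_subset_Icc_right ht₀.2.le
  have hnn : ∀ t, 0 ≤ len γ a t := fun t => ENNReal.toReal_nonneg
  -- strict monotonicity of arc length
  have hstrict : StrictMonoOn (len γ a) (Icc a t₀) := by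
    intro s hs t ht hst
    have hle := len_mono hr hs.1 hst.le (ht.2.trans ht₀.2.le)
    rcases eq_or_lt_of_le hle with heq | hlt
    · exfalso
      have h1 := len_sub hr hs.1 hst.le (ht.2.trans ht₀.2.le)
      rw [heq, sub_self] at h1
      have hr' : BoundedVariationOn γ (Icc s t) :=
        hr.mono (Icc_subset_Icc hs.1 (ht.2.trans ht₀.2.le))
      have h2 : eVariationOn γ (Icc s t) = 0 := by
        rcases (ENNReal.toReal_eq_zero_iff _).1 h1.symm with h | h
        · exact h
        · exact absurd h hr'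
      rw [eVariationOn.eq_zero_iff] at h2
      set τ := (s + t) / 2 with hτ
      have hτI : τ ∈ Ioo s t := ⟨by rw [hτ]; linarith, by rw [hτ]; linarith⟩
      have hext : IsLocalExtr (fun x => cdet (γ t) (γ x)) τ := by
        left
        filter_upwards [Ioo_mem_nhds hτI.1 hτI.2] with x hx
        have : γ x = γ τ := edist_eq_zero.1 (h2 x (Ioo_subset_Icc_self hx) τ (Ioo_subset_Icc_self hτI))
        rw [this]
      have h3 := H t ⟨lt_of_le_of_lt hs.1 hst, ht.2⟩ τ
        ⟨lt_of_le_of_lt hs.1 hτI.1, hτI.2.le⟩ (Or.inr hext)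
      have h4 := len_mono hr hs.1 hτI.1.le (hτI.2.le.trans (ht.2.trans ht₀.2.le))
      have h5 := hnn s
      rw [← heq] at h3
      nlinarith
    · exact hlt
  have hcont : ContinuousOn (len γ a) (Icc a t₀) := (len_cont hc hr).mono hsub
  set l := len γ a t₀ with hl
  have hat₀ : a ≤ t₀ := ht₀.1.le
  have hl0 : 0 < l := by
    have := hstrict (left_mem_Icc.2 hat₀) (right_mem_Icc.2 hat₀) ht₀.1
    rwa [len_self] at this
  -- the inverse function
  have hsurj : ∀ s ∈ Icc 0 l, ∃ t ∈ Icc a t₀, len γ a t = s := by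
    intro s hs
    have := intermediate_value_Icc hat₀ hcont
    rw [len_self] at this
    obtain ⟨t, ht, hts⟩ := this hs
    exact ⟨t, ht, hts⟩
  choose! σ hσ1 hσ2 using hsurj
  have hlmem : ∀ t ∈ Icc a t₀, len γ a t ∈ Icc 0 l := fun t ht =>
    ⟨hnn t, len_mono hr ht.1 ht.2 ht₀.2.le⟩
  have hσl : ∀ t ∈ Icc a t₀, σ (len γ a t) = t := fun t ht =>
    hstrict.injOn (hσ1 _ (hlmem t ht)) ht (hσ2 _ (hlmem t ht))
  have hσmono : MonotoneOn σ (Icc 0 l) := by
    intro x hx y hy hxy
    by_contra hcon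
    push Not at hcon
    have := hstrict (hσ1 y hy) (hσ1 x hx) hcon
    rw [hσ2 y hy, hσ2 x hx] at this
    linarith
  have hσ0 : σ 0 = a := by
    have := hσl a (left_mem_Icc.2 hat₀)
    rwa [len_self] at this
  have hσimg : σ '' Icc 0 l = Icc a t₀ := by
    apply Subset.antisymm
    · rintro _ ⟨x, hx, rfl⟩
      exact hσ1 x hx
    · intro t ht
      exact ⟨len γ a t, hlmem t ht, hσl t ht⟩
  -- properties of parameters in the open interval
  have hσopen : ∀ s ∈ Ioo 0 l, σ s ∈ Ioo a t₀ := by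
    intro s hs
    have hsI := Ioo_subset_Icc_self hs
    have h1 := hσ1 s hsI
    refine ⟨lt_of_le_of_ne h1.1 ?_, lt_of_le_of_ne h1.2 ?_⟩
    · intro h
      have := hσ2 s hsI
      rw [← h, len_self] at this
      linarith [hs.1]
    · intro h
      have := hσ2 s hsI
      rw [h] at this
      linarith [hs.2]
  refine no_curve (g := γ ∘ σ) hk hl0 ?_ ?_ ?_ ?_ ?_
  · intro s hs t ht hst
    have h1 := norm_le_len hr (hσ1 s hs).1 (hσmono hs ht hst) ((hσ1 t ht).2.trans ht₀.2.le)
    rw [hσ2 s hs, hσ2 t ht] at h1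
    exact h1
  · simp only [Function.comp_apply, hσ0, h0]
  · rw [eVariationOn.comp_eq_of_monotoneOn γ σ hσmono, hσimg, hl, len]
    exact ENNReal.ofReal_toReal_le
  · intro s hs h
    simp only [Function.comp_apply] at h
    have hso := hσopen s hs
    have h1 := H (σ s) ⟨hso.1, hso.2.le⟩ (σ s) ⟨hso.1, le_rfl⟩ (Or.inl h)
    have h2 := hnn (σ s)
    nlinarith
  · intro t ht τ hτ hext
    have hτl : τ ∈ Ioo 0 l :=
      ⟨lt_trans (mul_pos hekp ht.1) hτ.1, hτ.2.trans ht.2⟩
    have hto := hσopen t ht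
    have hτo := hσopen τ hτl
    have hτI := Ioo_subset_Icc_self hτl
    have htI := Ioo_subset_Icc_self ht
    -- transport of the local extremum
    have hcτ : Tendsto (len γ a) (𝓝 (σ τ)) (𝓝 τ) := by
      have h1 : ContinuousAt (len γ a) (σ τ) :=
        hcont.continuousAt (Icc_mem_nhds hτo.1 hτo.2)
      have h2 := h1.tendsto
      rwa [hσ2 τ hτI] at h2
    have hev : ∀ᶠ x in 𝓝 (σ τ), γ (σ (len γ a x)) = γ x := by
      filter_upwards [Icc_mem_nhds hτo.1 hτo.2] with x hx
      rw [hσl x hx]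
    have hext' : IsLocalExtr (fun x => cdet (γ (σ t)) (γ x)) (σ τ) := by
      rcases hext with h | h
      · left
        have h1 := hcτ.eventually h
        filter_upwards [h1, hev] with x hx1 hx2
        simp only [Function.comp_apply] at hx1
        rw [hx2] at hx1
        exact hx1
      · right
        have h1 := hcτ.eventually h
        filter_upwards [h1, hev] with x hx1 hx2
        simp only [Function.comp_apply] at hx1
        rw [hx2] at hx1
        exact hx1
    have h1 := H (σ t) ⟨hto.1, hto.2.le⟩ (σ τ) ⟨hτo.1, hσmono hτI htI hτ.2.le⟩ (Or.inr hext')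
    rw [hσ2 τ hτI, hσ2 t htI] at h1
    linarith [hτ.1]

end

end Pool.Agent.V11210.ARC
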